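import Pool.Agent.H304Z.NH.Spec3

set_option autoImplicit false
set_option linter.unusedSectionVars false
set_option linter.unusedVariables false

/-!
The choice of the scale.
-/

namespace Pool.Agent.H873Z.NHLS

open Matrix Finset Pool.Agent.H304Z.NH
open scoped MatrixOrder ComplexOrder

variable {n : Type} [Fintype n] [DecidableEq n]

theorem trace_entries (y x : Mat n) :
    trace (yᴴ * x) = ∑ p : n × n, star (y p.1 p.2) * x p.1 p.2 := by
  rw [Fintype.sum_prod_type_right]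
  simp [trace, Matrix.mul_apply, conjTranspose_apply]

theorem nsq_entries (x : Mat n) : nsq x = ∑ p : n × n, ‖x p.1 p.2‖ ^ 2 := by
  rw [nsq, tr, trace_entries, Complex.re_sum]
  refine sum_congr rfl fun p _ => ?_
  have h := Complex.conj_mul' (x p.1 p.2)
  have e : star (x p.1 p.2) = (starRingEnd ℂ) (x p.1 p.2) := rfl
  rw [e, h]
  norm_cast

theorem cs (y x : Mat n) : ‖trace (yᴴ * x)‖ ^ 2 ≤ nsq y * nsq x := by
  rw [trace_entries, nsq_entries, nsq_entries]
  have h1 : ‖∑ p : n × n, star (y p.1 p.2) * x p.1 p.2‖ ≤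
      ∑ p : n × n, ‖y p.1 p.2‖ * ‖x p.1 p.2‖ := by
    refine (norm_sum_le _ _).trans (le_of_eq ?_)
    refine sum_congr rfl fun p _ => ?_
    rw [norm_mul, norm_star]
  exact (pow_le_pow_left₀ (norm_nonneg _) h1 2).trans (sum_mul_sq_le_sq_mul_sq _ _ _)

theorem trace_single (y : Mat n) (i j : n) :
    trace (yᴴ * Matrix.single i j (1 : ℂ)) = star (y i j) := by
  rw [trace_entries, Finset.sum_eq_single (i, j)]
  · simp
  · rintro ⟨a, b⟩ _ h
    have : Matrix.single i j (1 : ℂ) a b = 0 := by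
      apply Matrix.single_apply_of_ne
      rintro ⟨rfl, rfl⟩
      exact h rfl
    simp [this]
  · simp

theorem nsq_single (i j : n) : nsq (Matrix.single i j (1 : ℂ) : Mat n) = 1 := by
  rw [nsq, tr, trace_single]
  simp

theorem AA_le_card {ι : Type} [Fintype ι] {y : ι → Mat n} (h : Bes y) :
    AA y ≤ (Fintype.card (n × n) : ℝ) := by
  have h1 : AA y = ∑ p : n × n, ∑ a, ‖trace ((y a)ᴴ * Matrix.single p.1 p.2 (1 : ℂ))‖ ^ 2 := by
    rw [AA, sum_comm]
    refine sum_congr rfl fun a _ => ?_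
    rw [nsq_entries]
    refine sum_congr rfl fun p _ => ?_
    rw [trace_single, norm_star]
  rw [h1]
  calc ∑ p : n × n, ∑ a, ‖trace ((y a)ᴴ * Matrix.single p.1 p.2 (1 : ℂ))‖ ^ 2
      ≤ ∑ p : n × n, (1 : ℝ) := by
        refine sum_le_sum fun p _ => ?_
        have := h (Matrix.single p.1 p.2 (1 : ℂ))
        rwa [nsq_single] at this
    _ = _ := by simp

theorem AA_eq_tr {ι : Type} [Fintype ι] (y : ι → Mat n) : AA y = tr (LL y) := by
  rw [AA, LL, tr_sum]
  exact sum_congr rfl fun a _ => nsq_eq' _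

theorem AA_le {ι : Type} [Fintype ι] {y : ι → Mat n} {U : Mat n} {m : ℝ} (h : Feas U m y) :
    AA y ≤ m * tr U := by
  rw [AA_eq_tr, ← tr_smul]
  exact tr_mono h.2.1

/-- the values of the functional -/
def T {G : Type} (v : G → Mat n) (S : Finset G) (U : Mat n) (η m : ℝ) : Set ℝ :=
  {r | ∃ (ι : Type) (_ : Fintype ι) (y : ι → Mat n), Feas U m y ∧ EE v S y ≤ η * (m * tr U) ∧
    r * (2 * m ^ 2 * tr U) = 4 * m * AA y - nsq (LL y) - nsq (RR y)}

section

variable {G : Type} (v : G → Mat n) (S : Finset G) {U : Mat n} {η : ℝ}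

theorem zero_mem (hη : 0 < η) (hU : IsProj U) {m : ℝ} (hm : 0 < m) : (0 : ℝ) ∈ T v S U η m := by
  refine ⟨Empty, inferInstance, fun _ => 0, ⟨?_, ?_, ?_⟩, ?_, ?_⟩
  · intro x
    simpa using nsq_nonneg x
  · simpa [LL] using rsmul_nonneg hm.le hU.nonneg
  · simpa [RR] using rsmul_nonneg hm.le hU.nonneg
  · have := hU.tr_nonneg
    simp only [EE, univ_eq_empty, sum_empty]
    positivity
  · simp [AA, LL, RR, nsq_zero]

theorem le_of_mem (hN : 0 < tr U) {m : ℝ} (hm : 0 < m) {r : ℝ} (hr : r ∈ T v S U η m) :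
    r ≤ 2 ∧ r * (m * tr U) ≤ 2 * (Fintype.card (n × n) : ℝ) := by
  obtain ⟨ι, _, y, hf, -, e⟩ := hr
  have h1 := nsq_nonneg (LL y)
  have h2 := nsq_nonneg (RR y)
  have h3 := AA_le hf
  have h4 := AA_le_card hf.1
  have h5 : r * (m * tr U) ≤ 2 * AA y := by
    have : m * (r * (m * tr U)) ≤ m * (2 * AA y) := by nlinarith
    exact le_of_mul_le_mul_left this hm
  refine ⟨?_, by linarith⟩
  have h6 : 0 < m * tr U := mul_pos hm hN
  have : r * (m * tr U) ≤ 2 * (m * tr U) := by linarith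
  exact le_of_mul_le_mul_right this h6

theorem bdd (hN : 0 < tr U) {m : ℝ} (hm : 0 < m) : BddAbove (T v S U η m) :=
  ⟨2, fun _ hr => (le_of_mem v S hN hm hr).1⟩

theorem one_mem (hη : 0 < η) (hU : IsProj U) (hN : 0 < tr U) (hen : en v S U ≤ η * tr U) :
    (1 : ℝ) ∈ T v S U η (1 / tr U) := by
  set c : ℝ := Real.sqrt (1 / tr U) with hc
  have hc2 : c ^ 2 = 1 / tr U := Real.sq_sqrt (by positivity)
  have hL : LL (fun _ : Unit => c • U) = (1 / tr U) • U := by
    simp only [LL, univ_unique, sum_singleton, rsmul_star, Matrix.smul_mul, Matrix.mul_smul,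
      smul_smul, hU.1, hU.2]
    rw [← hc2, sq]
  have hR : RR (fun _ : Unit => c • U) = (1 / tr U) • U := by
    simp only [RR, univ_unique, sum_singleton, rsmul_star, Matrix.smul_mul, Matrix.mul_smul,
      smul_smul, hU.1, hU.2]
    rw [← hc2, sq]
  have hn : nsq (c • U) = 1 := by
    rw [nsq_smul, hc2, hU.nsq_eq]
    field_simp
  refine ⟨Unit, inferInstance, fun _ => c • U, ⟨?_, hL.le, hR.le⟩, ?_, ?_⟩
  · intro x
    have := cs (c • U) x
    rw [hn, one_mul] at this
    simpa using this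
  · have e : EE v S (fun _ : Unit => c • U) = c ^ 2 * en v S U := by
      simp only [EE, univ_unique, sum_singleton, en, cm_smul, nsq_smul, mul_sum]
    rw [e, hc2]
    have : 1 / tr U * en v S U ≤ 1 / tr U * (η * tr U) :=
      mul_le_mul_of_nonneg_left hen (by positivity)
    calc 1 / tr U * en v S U ≤ 1 / tr U * (η * tr U) := this
      _ = η * (1 / tr U * tr U) := by ring
  · rw [hL, hR, nsq_smul, hU.nsq_eq]
    have : AA (fun _ : Unit => c • U) = 1 := by simp [AA, hn]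
    rw [this]
    field_simp
    ring

theorem half_le (hη : 0 < η) (hU : IsProj U) (hN : 0 < tr U) {m : ℝ} (hm : 0 < m) :
    sSup (T v S U η m) ≤ 2 * sSup (T v S U η (2 * m)) := by
  refine csSup_le ⟨0, zero_mem v S hη hU hm⟩ ?_
  rintro r ⟨ι, _, y, hf, hE, e⟩
  have h2m : 0 < 2 * m := by positivity
  have hD : 0 < 2 * (2 * m) ^ 2 * tr U := by positivity
  have hle : m • U ≤ (2 * m) • U := rsmul_le_of_le (by linarith) hU.nonneg
  have hmem : (4 * (2 * m) * AA y - nsq (LL y) - nsq (RR y)) / (2 * (2 * m) ^ 2 * tr U) ∈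
      T v S U η (2 * m) := by
    refine ⟨ι, inferInstance, y, ⟨hf.1, hf.2.1.trans hle, hf.2.2.trans hle⟩, ?_, ?_⟩
    · have : 0 < η * (m * tr U) := by positivity
      nlinarith
    · exact div_mul_cancel₀ _ hD.ne'
  have h1 := le_csSup (bdd v S hN h2m) hmem
  rw [div_le_iff₀ hD] at h1
  have h3 := nsq_nonneg (LL y)
  have h4 := nsq_nonneg (RR y)
  have h5 : 0 < 2 * m ^ 2 * tr U := by positivity
  have : r * (2 * m ^ 2 * tr U) ≤ 2 * sSup (T v S U η (2 * m)) * (2 * m ^ 2 * tr U) := by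
    nlinarith
  exact le_of_mul_le_mul_right this h5

theorem exists_small (hη : 0 < η) (hU : IsProj U) (hN : 0 < tr U) :
    ∃ k : ℕ, sSup (T v S U η (2 ^ k / tr U)) ≤ 1 / 25 := by
  obtain ⟨k, hk⟩ := pow_unbounded_of_one_lt (50 * (Fintype.card (n × n) : ℝ)) (one_lt_two (α := ℝ))
  refine ⟨k, ?_⟩
  have hm : (0 : ℝ) < 2 ^ k / tr U := by positivity
  refine csSup_le ⟨0, zero_mem v S hη hU hm⟩ ?_
  intro r hr
  have h := (le_of_mem v S hN hm hr).2
  rw [div_mul_cancel₀ _ hN.ne'] at h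
  have h2 : (0 : ℝ) < 2 ^ k := by positivity
  have : r * 2 ^ k ≤ 1 / 25 * 2 ^ k := by linarith
  exact le_of_mul_le_mul_right this h2

end

theorem ls : Pool.Agent.H304Z.NH.S_LS := by
  intro n _ _ G v S U η hη hU hN hen
  classical
  have hex := exists_small v S hη hU hN
  have hk := Nat.find_spec hex
  have hk0 : Nat.find hex ≠ 0 := by
    intro h0
    rw [h0, pow_zero] at hk
    have := le_csSup (bdd v S hN (by positivity)) (one_mem v S hη hU hN hen)
    linarith
  obtain ⟨j, hj⟩ := Nat.exists_eq_succ_of_ne_zero hk0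
  have hj1 := Nat.find_min hex (show j < Nat.find hex by omega)
  rw [hj] at hk
  have hmj : (0 : ℝ) < 2 ^ j / tr U := by positivity
  have hh := half_le v S hη hU hN hmj
  have e : (2 : ℝ) * (2 ^ j / tr U) = 2 ^ j.succ / tr U := by
    rw [pow_succ]; ring
  rw [e] at hh
  set m : ℝ := 2 ^ j.succ / tr U with hmdef
  have hm : 0 < m := by positivity
  have hD : 0 < 2 * m ^ 2 * tr U := by positivity
  refine ⟨m, sSup (T v S U η m), hm, by linarith [not_le.mp hj1], hk, ?_, ?_⟩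
  · intro ι _ y hf hE
    have hmem : (4 * m * AA y - nsq (LL y) - nsq (RR y)) / (2 * m ^ 2 * tr U) ∈ T v S U η m :=
      ⟨ι, inferInstance, y, hf, hE, div_mul_cancel₀ _ hD.ne'⟩
    have h1 := le_csSup (bdd v S hN hm) hmem
    rwa [div_le_iff₀ hD] at h1
  · obtain ⟨r, ⟨ι, _, y, hf, hE, e⟩, hr⟩ := exists_lt_of_lt_csSup ⟨0, zero_mem v S hη hU hm⟩
      (show sSup (T v S U η m) - η < sSup (T v S U η m) by linarith)
    refine ⟨ι, inferInstance, y, hf, hE, ?_⟩
    rw [← e]
    exact mul_le_mul_of_nonneg_right hr.le hD.le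

end Pool.Agent.H873Z.NHLS
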